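import Mathlib
import Pool.Agent.H484R3.CircB

/-!
MP_a56eaa_co: the Hadwiger conjecture for the tree-chromatic number, for vertex-transitive graphs of prime order with independence number at
most two.
-/

set_option autoImplicit false

namespace Pool.Agent.Results.MP_a56eaa_co.VertexTransitivePrime

/-- `K_k` is a minor of `G`: there are `k` pairwise disjoint vertex sets, each inducing a connected
subgraph, any two of them joined by an edge of `G`. -/
def HasCliqueMinor {V : Type} (G : SimpleGraph V) (k : ℕ) : Prop :=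
  ∃ f : Fin k → Set V,
    (∀ i, (G.induce (f i)).Connected) ∧
    (∀ i j, i ≠ j → Disjoint (f i) (f j)) ∧
    (∀ i j, i ≠ j → ∃ u ∈ f i, ∃ v ∈ f j, G.Adj u v)

/-- Let `G` be a vertex-transitive graph with a prime number of vertices and without three pairwise
nonadjacent vertices. If `G` has no `K_(t+1)` minor, then it has a tree decomposition all of whose bags induce `t`-colourable subgraphs. -/
theorem result (V : Type) [Fintype V] (G : SimpleGraph V) (hp : (Fintype.card V).Prime)
    (htr : ∀ x y : V, ∃ φ : G ≃g G, φ x = y)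
    (hα : ∀ x y z : V, x ≠ y → y ≠ z → x ≠ z → G.Adj x y ∨ G.Adj y z ∨ G.Adj x z)
    (t : ℕ) (hminor : ¬ HasCliqueMinor G (t + 1)) :
    ∃ n : ℕ, ∃ T : SimpleGraph (Fin n), T.IsTree ∧
      ∃ β : Fin n → Set V,
        (∀ u v, G.Adj u v → ∃ w, u ∈ β w ∧ v ∈ β w) ∧
        (∀ v, (T.induce {w | v ∈ β w}).Connected) ∧
        (∀ w, (G.induce (β w)).Colorable t) := by
  obtain ⟨v, h1, h2⟩ := H484R3.Circ.exists_group hp htr hα hminor
  exact H484R3.Circ.tree_two h1 h2

end Pool.Agent.Results.MP_a56eaa_co.VertexTransitivePrime
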